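import Pool.Agent.LibNC34.Defs
import Pool.Agent.LibNI34.Fin
import Pool.Agent.LibRk1.Clique

/-!
Three absolute values for the curves of `rkSet`.
-/

open WeierstrassCurve Pool.Agent.LibBH2 Pool.Agent.LibIG50 Pool.Agent.LibNI34 Rk1
open scoped Classical

namespace Pool.Agent.LibNC34

section apex

variable {f : AbsoluteValue Qb ℝ} {s t : Qb}

theorem A3_lt (hf : Odd2 f) {a b : Qb} (h : f a < f b) : f (a - b) = f b := by
  have h1 := hf.na a (-b)
  rw [f.map_neg, ← sub_eq_add_neg, max_eq_right h.le] at h1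
  refine le_antisymm h1 ?_
  have h2 := hf.na a (-(a - b))
  rw [f.map_neg, show a + -(a - b) = b by ring] at h2
  rcases le_max_iff.1 h2 with h3 | h3
  · exact absurd h3 (not_le.2 h)
  · exact h3

theorem A3_lt' (hf : Odd2 f) {a b : Qb} (h : f b < f a) : f (a - b) = f a := by
  rw [f.map_sub, A3_lt hf h]

/-- the apex `t` -/
theorem A3_t (hf : Odd2 f) (ht : f t = 1) (hs : f s < 1) :
    Apex f 1 s t t ∧ Near f 1 s t t := by
  refine ⟨⟨hs.le, ht.le, by ring, ?_⟩, ?_⟩
  · rw [show 3 * t ^ 2 - 2 * (s + t) * t + s * t = t * (t - s) by ring, f.map_mul,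
      A3_lt' hf (by rw [ht]; exact hs), ht]
    norm_num
  · intro u v hu hv hut hvt huv
    have h1 : ∀ w : Qb, w * (w - s) * (w - t) = 0 → w ≠ t → w = 0 ∨ w = s := by
      intro w hw hwt
      rcases mul_eq_zero.1 hw with h2 | h2
      · rcases mul_eq_zero.1 h2 with h3 | h3
        · exact Or.inl h3
        · exact Or.inr (sub_eq_zero.1 h3)
      · exact absurd (sub_eq_zero.1 h2) hwt
    rcases h1 u hu hut with rfl | rfl <;> rcases h1 v hv hvt with rfl | rfl
    · exact absurd rfl huv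
    · rw [zero_sub, f.map_neg]; exact hs
    · rw [sub_zero]; exact hs
    · exact absurd rfl huv

/-- the apex `s` -/
theorem A3_s (hf : Odd2 f) (hs : f s = 1) (ht : f t < 1) :
    Apex f 1 s t s ∧ Near f 1 s t s := by
  refine ⟨⟨hs.le, ht.le, by ring, ?_⟩, ?_⟩
  · rw [show 3 * s ^ 2 - 2 * (s + t) * s + s * t = s * (s - t) by ring, f.map_mul,
      A3_lt' hf (by rw [hs]; exact ht), hs]
    norm_num
  · intro u v hu hv hus hvs huv
    have h1 : ∀ w : Qb, w * (w - s) * (w - t) = 0 → w ≠ s → w = 0 ∨ w = t := by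
      intro w hw hws
      rcases mul_eq_zero.1 hw with h2 | h2
      · rcases mul_eq_zero.1 h2 with h3 | h3
        · exact Or.inl h3
        · exact absurd (sub_eq_zero.1 h3) hws
      · exact Or.inr (sub_eq_zero.1 h2)
    rcases h1 u hu hus with rfl | rfl <;> rcases h1 v hv hvs with rfl | rfl
    · exact absurd rfl huv
    · rw [zero_sub, f.map_neg]; exact ht
    · rw [sub_zero]; exact ht
    · exact absurd rfl huv

/-- the apex `0` -/
theorem A3_0 {ρ : ℝ} (hρ1 : ρ < 1) (hρ : 0 < ρ) (hs : f s = ρ) (ht : f t = ρ)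
    (hst : f (s - t) ^ 2 = ρ ^ 3) : Apex f ρ s t 0 ∧ Near f ρ s t 0 := by
  have hlt : f (s - t) < ρ := by
    by_contra hc
    push Not at hc
    have h1 : ρ ^ 2 ≤ f (s - t) ^ 2 := pow_le_pow_left₀ hρ.le hc 2
    rw [hst] at h1
    have h2 : ρ ^ 3 < ρ ^ 2 := by
      have : ρ ^ 2 * ρ < ρ ^ 2 * 1 := mul_lt_mul_of_pos_left hρ1 (by positivity)
      linarith [this, show ρ ^ 2 * ρ = ρ ^ 3 by ring]
    linarith
  refine ⟨⟨hs.le, ht.le, by ring, ?_⟩, ?_⟩
  · rw [show 3 * (0 : Qb) ^ 2 - 2 * (s + t) * 0 + s * t = s * t by ring, f.map_mul, hs, ht]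
    ring
  · intro u v hu hv hu0 hv0 huv
    have h1 : ∀ w : Qb, w * (w - s) * (w - t) = 0 → w ≠ 0 → w = s ∨ w = t := by
      intro w hw hw0
      rcases mul_eq_zero.1 hw with h2 | h2
      · rcases mul_eq_zero.1 h2 with h3 | h3
        · exact absurd h3 hw0
        · exact Or.inl (sub_eq_zero.1 h3)
      · exact Or.inr (sub_eq_zero.1 h2)
    rcases h1 u hu hu0 with rfl | rfl <;> rcases h1 v hv hv0 with rfl | rfl
    · exact absurd rfl huv
    · exact hlt
    · rw [f.map_sub]; exact hlt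
    · exact absurd rfl huv

end apex

/-- the roots `s` and `t` are conjugate -/
theorem A3_conj {A B : ℚ} {s t : Qb} (hD : A ^ 2 - 4 * B < 0)
    (hS : s + t = -algebraMap ℚ Qb A) (hB : s * t = algebraMap ℚ Qb B) :
    ∃ σ : Qb ≃ₐ[ℚ] Qb, σ s = t ∧ σ t = s := by
  obtain ⟨g, hg⟩ : ∃ g : Polynomial ℚ, g = Polynomial.X ^ 2 + (Polynomial.C A * Polynomial.X +
    Polynomial.C B) := ⟨_, rfl⟩
  have hdeg : (Polynomial.C A * Polynomial.X + Polynomial.C B).degree <
      ((2 : ℕ) : WithBot ℕ) := by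
    refine lt_of_le_of_lt Polynomial.degree_linear_le ?_
    norm_num
  have hmon : g.Monic := by
    rw [hg]
    exact Polynomial.monic_X_pow_add hdeg
  have hnat : g.natDegree = 2 := by
    rw [hg]
    refine Polynomial.natDegree_eq_of_degree_eq_some ?_
    rw [Polynomial.degree_add_eq_left_of_degree_lt (by rwa [Polynomial.degree_X_pow]),
      Polynomial.degree_X_pow]
  have hirr : Irreducible g := by
    refine (hmon.irreducible_iff_roots_eq_zero_of_degree_le_three (by omega) (by omega)).2 ?_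
    rw [Multiset.eq_zero_iff_forall_notMem]
    intro x hx
    have h1 : g.IsRoot x := (Polynomial.mem_roots'.1 hx).2
    rw [Polynomial.IsRoot, hg] at h1
    simp only [Polynomial.eval_add, Polynomial.eval_mul, Polynomial.eval_pow, Polynomial.eval_C,
      Polynomial.eval_X] at h1
    have h2 : (2 * x + A) ^ 2 = A ^ 2 - 4 * B := by linear_combination 4 * h1
    have h3 := sq_nonneg (2 * x + A)
    rw [h2] at h3
    linarith
  have hroot : ∀ x : Qb, x ^ 2 - (s + t) * x + s * t = 0 → Polynomial.aeval x g = 0 := by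
    intro x hx
    rw [hg]
    simp only [map_add, map_mul, map_pow, Polynomial.aeval_C, Polynomial.aeval_X]
    rw [← hB]
    have h1 : algebraMap ℚ Qb A = -(s + t) := by rw [hS, neg_neg]
    rw [h1]
    linear_combination hx
  have hs := minpoly.eq_of_irreducible_of_monic hirr (hroot s (by ring)) hmon
  have ht := minpoly.eq_of_irreducible_of_monic hirr (hroot t (by ring)) hmon
  have hc : IsConjRoot ℚ t s := ht.symm.trans hs
  have hac : IsAlgClosure ℚ Qb := ⟨inferInstance, Algebra.isAlgebraic_def.2 fun x => by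
    exact (AlgebraicClosure.isAlgebraic ℚ).isAlgebraic x⟩
  have hn : Normal ℚ Qb := IsAlgClosure.normal ℚ Qb
  obtain ⟨σ, hσ⟩ := (isConjRoot_iff_exists_algEquiv).1 hc
  refine ⟨σ, ?_, ?_⟩
  · first | exact hσ.symm | exact hσ
  · have h1 : σ (s + t) = s + t := by
      rw [hS, map_neg, σ.commutes]
    rw [map_add] at h1
    have h2 : σ s = t := by first | exact hσ.symm | exact hσ
    rw [h2] at h1
    linear_combination h1

theorem exists_apex {W : WeierstrassCurve ℚ} (hW : W ∈ rkSet) :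
    ∃ s t : Qb, W⁄Qb = lc s t ∧ ∀ e : Qb, e * (e - s) * (e - t) = 0 →
      ∃ (f : AbsoluteValue Qb ℝ) (ρ : ℝ), Odd2 f ∧ 0 < ρ ∧ Apex f ρ s t e ∧ Near f ρ s t e := by
  obtain ⟨p, q, ⟨hp, hq, hl, hp8, hq8⟩, rfl⟩ := mem_rkSet.1 hW
  obtain ⟨s, t, hlc⟩ := exists_lc p q
  refine ⟨s, t, hlc, ?_⟩
  have hS : s + t = -algebraMap ℚ Qb (-4 * p * q) := by
    have h1 := congrArg WeierstrassCurve.a₂ hlc
    have h2 : ((rkCurve p q)⁄Qb).a₂ = algebraMap ℚ Qb (-4 * p * q) := rfl
    rw [h2] at h1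
    rw [h1]
    simp only [lc]
    ring
  have hB : s * t = algebraMap ℚ Qb (2 * p * q ^ 2 * (q + 2 * p)) := by
    have h1 := congrArg WeierstrassCurve.a₄ hlc
    have h2 : ((rkCurve p q)⁄Qb).a₄ = algebraMap ℚ Qb (2 * p * q ^ 2 * (q + 2 * p)) := rfl
    rw [h2] at h1
    rw [h1]
    simp only [lc]
  have hD : (s - t) ^ 2 = algebraMap ℚ Qb (-8 * p * q ^ 3) := by
    have h1 : (s - t) ^ 2 = (s + t) ^ 2 - 4 * (s * t) := by ring
    rw [h1, hS, hB]
    have h2 : (4 : Qb) = algebraMap ℚ Qb 4 := by rw [map_ofNat]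
    rw [h2, ← map_neg, ← map_pow, ← map_mul, ← map_sub]
    congr 1
    ring
  have hp2 : p ≠ 2 := by rintro rfl; omega
  have hq2 : q ≠ 2 := by rintro rfl; omega
  have hpq : p ≠ q := by rintro rfl; omega
  have hp0 := hp.pos
  have hl2 : q + 2 * p ≠ 2 := by omega
  have hlq : q + 2 * p ≠ q := by omega
  have hlp : q + 2 * p ≠ p := by
    have := hq.pos
    omega
  have Fp := Fact.mk hp
  have Fq := Fact.mk hq
  have Fl := Fact.mk hl
  have F2 := Fact.mk Nat.prime_two
  have hcast : ((q + 2 * p : ℕ) : ℚ) = (q : ℚ) + 2 * p := by push_cast; ring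
  intro e he
  by_cases he0 : e = 0
  · subst he0
    obtain ⟨f, hf, hfq⟩ := exists_abs q hq hq2
    have n2 : padicNorm q 2 = 1 := by
      have := padicNorm.padicNorm_of_prime_of_ne (p := q) (q := 2) hq2
      exact_mod_cast this
    have np : padicNorm q p = 1 := padicNorm.padicNorm_of_prime_of_ne (Ne.symm hpq)
    have nl : padicNorm q ((q : ℚ) + 2 * p) = 1 := by
      rw [← hcast]
      exact padicNorm.padicNorm_of_prime_of_ne (Ne.symm hlq)
    have nq : padicNorm q q = (q : ℚ)⁻¹ := padicNorm.padicNorm_p_of_prime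
    have hq1 : (1 : ℝ) < q := by exact_mod_cast hq.one_lt
    obtain ⟨ρ, hρ⟩ : ∃ ρ : ℝ, ρ = (q : ℝ)⁻¹ := ⟨_, rfl⟩
    have hρ0 : 0 < ρ := by rw [hρ]; positivity
    have hρ1 : ρ < 1 := by rw [hρ]; exact inv_lt_one_of_one_lt₀ hq1
    have e1 : f s * f t = ρ ^ 2 := by
      rw [← f.map_mul, hB, hfq]
      rw [padicNorm.mul, padicNorm.mul, padicNorm.mul, n2, np, nl, pow_two, padicNorm.mul, nq, hρ]
      push_cast
      ring
    have e2 : f (s - t) ^ 2 = ρ ^ 3 := by
      rw [← f.map_pow, hD, hfq]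
      have h8 : padicNorm q (-8) = 1 := by
        rw [padicNorm.neg, show (8 : ℚ) = 2 * 2 * 2 by norm_num, padicNorm.mul, padicNorm.mul, n2]
        norm_num
      rw [padicNorm.mul, padicNorm.mul, h8, np, pow_succ, pow_two, padicNorm.mul, padicNorm.mul,
        nq, hρ]
      push_cast
      ring
    have e3 : f s = f t := by
      rcases lt_trichotomy (f s) (f t) with h | h | h
      · exfalso
        have h1 := A3_lt hf h
        rw [h1] at e2
        have h2 : ρ ^ 2 ≤ f t ^ 2 := by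
          rw [← e1, pow_two]
          exact mul_le_mul_of_nonneg_right h.le (f.nonneg _)
        rw [e2] at h2
        nlinarith [mul_pos (mul_pos hρ0 hρ0) (sub_pos.2 hρ1)]
      · exact h
      · exfalso
        have h1 := A3_lt' hf h
        rw [h1] at e2
        have h2 : ρ ^ 2 ≤ f s ^ 2 := by
          rw [← e1, pow_two]
          exact mul_le_mul_of_nonneg_left h.le (f.nonneg _)
        rw [e2] at h2
        nlinarith [mul_pos (mul_pos hρ0 hρ0) (sub_pos.2 hρ1)]
    have e4 : f t = ρ := by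
      rw [e3, ← pow_two] at e1
      exact (pow_left_inj₀ (f.nonneg _) hρ0.le two_ne_zero).1 e1
    have e5 : f s = ρ := e3.trans e4
    obtain ⟨h1, h2⟩ := A3_0 hρ1 hρ0 e5 e4 e2
    exact ⟨f, ρ, hf, hρ0, h1, h2⟩
  · obtain ⟨f, hf, hfq⟩ := exists_abs (q + 2 * p) hl hl2
    have n2 : padicNorm (q + 2 * p) 2 = 1 := by
      have := padicNorm.padicNorm_of_prime_of_ne (p := q + 2 * p) (q := 2) hl2
      exact_mod_cast this
    have np : padicNorm (q + 2 * p) p = 1 := padicNorm.padicNorm_of_prime_of_ne hlp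
    have nq : padicNorm (q + 2 * p) q = 1 := padicNorm.padicNorm_of_prime_of_ne hlq
    have nl : padicNorm (q + 2 * p) ((q : ℚ) + 2 * p) = ((q : ℚ) + 2 * p)⁻¹ := by
      rw [← hcast]
      exact padicNorm.padicNorm_p_of_prime
    have hl1 : (1 : ℝ) < (q : ℝ) + 2 * p := by
      have : (1 : ℝ) < ((q + 2 * p : ℕ) : ℝ) := by exact_mod_cast hl.one_lt
      rw [Nat.cast_add, Nat.cast_mul] at this
      exact_mod_cast this
    obtain ⟨ρ, hρ⟩ : ∃ ρ : ℝ, ρ = ((q : ℝ) + 2 * p)⁻¹ := ⟨_, rfl⟩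
    have hρ0 : 0 < ρ := by rw [hρ]; positivity
    have hρ1 : ρ < 1 := by rw [hρ]; exact inv_lt_one_of_one_lt₀ hl1
    have e1 : f s * f t = ρ := by
      rw [← f.map_mul, hB, hfq]
      rw [padicNorm.mul, padicNorm.mul, padicNorm.mul, n2, np, nl, pow_two, padicNorm.mul, nq, hρ]
      push_cast
      ring
    have e2 : f (s + t) = 1 := by
      have h4 : padicNorm (q + 2 * p) (-4) = 1 := by
        rw [padicNorm.neg, show (4 : ℚ) = 2 * 2 by norm_num, padicNorm.mul, n2]
        norm_num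
      rw [hS, f.map_neg, hfq, padicNorm.mul, padicNorm.mul, h4, np, nq]
      norm_num
    -- one of them is one, the other one is small
    have key : ∀ a b : Qb, f a * f b = ρ → f (a + b) = 1 → 1 ≤ f a → f a = 1 ∧ f b < 1 := by
      intro a b h1 h2 h3
      have h4 : f b ≤ ρ := by
        rw [← h1]
        exact le_mul_of_one_le_left (f.nonneg _) h3
      have h5 : f b < 1 := lt_of_le_of_lt h4 hρ1
      refine ⟨le_antisymm ?_ h3, h5⟩
      have h6 := hf.na (a + b) (-b)
      rw [f.map_neg, add_neg_cancel_right, h2, max_eq_left h5.le] at h6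
      exact h6
    have e3 : (f s = 1 ∧ f t < 1) ∨ (f t = 1 ∧ f s < 1) := by
      have h1 := hf.na s t
      rw [e2] at h1
      rcases le_max_iff.1 h1 with h2 | h2
      · exact Or.inl (key s t e1 e2 h2)
      · exact Or.inr (key t s (by rw [mul_comm]; exact e1) (by rw [add_comm]; exact e2) h2)
    obtain ⟨σ, hσs, hσt⟩ := A3_conj (A := -4 * p * q) (B := 2 * p * q ^ 2 * (q + 2 * p))
      (s := s) (t := t) (by
        have h1 : (0 : ℚ) < p := by exact_mod_cast hp.pos
        have h2 : (0 : ℚ) < q := by exact_mod_cast hq.pos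
        have h3 : (-4 * (p : ℚ) * q) ^ 2 - 4 * (2 * p * q ^ 2 * (q + 2 * p)) =
          -(8 * (p * q ^ 3)) := by ring
        rw [h3]
        have h4 : (0 : ℚ) < p * q ^ 3 := by positivity
        linarith) hS hB
    -- the conjugate absolute value
    obtain ⟨f', hf's⟩ : ∃ f' : AbsoluteValue Qb ℝ, ∀ x, f' x = f (σ x) :=
      ⟨f.comp (f := (σ : Qb →+* Qb)) σ.injective, fun x => rfl⟩
    have hf' : Odd2 f' := by
      refine ⟨fun x y => ?_, ?_⟩
      · rw [hf's, hf's, hf's, map_add]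
        exact hf.na _ _
      · rw [hf's, map_ofNat]
        exact hf.two
    have hst : e = s ∨ e = t := by
      rcases mul_eq_zero.1 he with h2 | h2
      · rcases mul_eq_zero.1 h2 with h3 | h3
        · exact absurd h3 he0
        · exact Or.inl (sub_eq_zero.1 h3)
      · exact Or.inr (sub_eq_zero.1 h2)
    rcases e3 with ⟨h1, h2⟩ | ⟨h1, h2⟩
    · rcases hst with rfl | rfl
      · obtain ⟨h3, h4⟩ := A3_s hf h1 h2
        exact ⟨f, 1, hf, one_pos, h3, h4⟩
      · obtain ⟨h3, h4⟩ := A3_t hf' (s := s) (t := e) (by rw [hf's, hσt]; exact h1)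
          (by rw [hf's, hσs]; exact h2)
        exact ⟨f', 1, hf', one_pos, h3, h4⟩
    · rcases hst with rfl | rfl
      · obtain ⟨h3, h4⟩ := A3_s hf' (s := e) (t := t) (by rw [hf's, hσs]; exact h1)
          (by rw [hf's, hσt]; exact h2)
        exact ⟨f', 1, hf', one_pos, h3, h4⟩
      · obtain ⟨h3, h4⟩ := A3_t hf h1 h2
        exact ⟨f, 1, hf, one_pos, h3, h4⟩

end Pool.Agent.LibNC34
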