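import Pool.Agent.LibAC84E.Hur

/-!
[NC34 Alg] pure algebra (EASY/MEDIUM). LibAC84E/Hur.lean: `polar`, `q_zero`, `q_zsmul`, `q_one`, `char_eq`, `torsion_free`,
`eq_zero_of` (section variables `q`, `par`, `mul`, `pos`). Let `T f = q (1 + f) - 1 - q f` and `d f = T f ^ 2 - 4 q f`. Then
`d (f + m) = d f`, `d (2 g) = 4 d g` and `d f ≤ 0` (`q (x + y f) = x ^ 2 + T f x y + q f y ^ 2 ≥ 0` for all integers: take
`x = -T f`, `y = 2`). By `h`, `d f = 4 * d g`; so by descent (`Int.natAbs (d f)`) `d f = 0`: `T f = 2 m`, `q f = m ^ 2` and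
`q (f - m) = q f - m T f + m ^ 2 = 0`, so `f = m`.
-/

namespace Pool.Agent.LibNC34

theorem int_of_half {R : Type*} [CommRing R] [Nontrivial R] (q : R → ℤ)
    (par : ∀ f g, q (f + g) + q (f - g) = 2 * q f + 2 * q g)
    (mul : ∀ f g, q (f * g) = q f * q g) (pos : ∀ f, f ≠ 0 → 0 < q f)
    (h : ∀ f : R, ∃ g : R, f = g + g ∨ f = 1 + (g + g)) (f : R) : ∃ m : ℤ, f = m • (1 : R) := by
  obtain ⟨B, hB, hqB, hadd⟩ := LibAC84E.polar q par mul pos
  have hq0 : q 0 = 0 := LibAC84E.q_zero q par mul pos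
  have hq1 : q 1 = 1 := LibAC84E.q_one q par mul pos
  have hpos : ∀ f, 0 ≤ q f := by
    intro f
    by_cases hf : f = 0
    · rw [hf, hq0]
    · exact (pos f hf).le
  have hz : ∀ (m : ℤ) (u v : R), B (m • u) v = m * B u v := by
    intro m u v
    let g : R →+ ℤ := AddMonoidHom.mk' (fun u => B u v) (fun a b => hadd a b v)
    have := map_zsmul g m u
    rw [smul_eq_mul] at this
    exact this
  have hz' : ∀ (m : ℤ) (u v : R), B u (m • v) = m * B u v := by
    intro m u v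
    rw [hB, hz, hB]
  have hadd' : ∀ u v v', B u (v + v') = B u v + B u v' := by
    intro u v v'
    rw [hB, hadd, hB v, hB v']
  have hqz : ∀ (m : ℤ) (f : R), q (m • f) = m ^ 2 * q f := LibAC84E.q_zsmul q par mul pos
  have hB11 : B 1 1 = 2 := by
    have h1 := hqB 1 1
    have h2 : q (1 + 1 : R) = 4 := by
      rw [show (1 + 1 : R) = (2 : ℤ) • (1 : R) by rw [two_zsmul], hqz, hq1]
      norm_num
    rw [h2, hq1] at h1
    linarith
  -- the discriminant
  have hd0 : ∀ f : R, B 1 f ^ 2 - 4 * q f ≤ 0 := by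
    intro f
    have h1 := hpos ((-(B 1 f)) • (1 : R) + (2 : ℤ) • f)
    rw [hqB, hqz, hqz, hz, hz', hq1] at h1
    nlinarith
  have hd : ∀ f : R, ∃ g : R, B 1 f ^ 2 - 4 * q f = 4 * (B 1 g ^ 2 - 4 * q g) := by
    intro f
    obtain ⟨g, hg | hg⟩ := h f
    · refine ⟨g, ?_⟩
      rw [hg, ← two_zsmul, hz', hqz]
      ring
    · refine ⟨g, ?_⟩
      rw [hg, ← two_zsmul, hadd', hqB, hz', hqz, hB11, hq1]
      ring
  have key : ∀ (n : ℕ) (f : R), (B 1 f ^ 2 - 4 * q f).natAbs ≤ n → B 1 f ^ 2 - 4 * q f = 0 := by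
    intro n
    induction n with
    | zero =>
      intro f hf
      exact Int.natAbs_eq_zero.1 (Nat.le_zero.1 hf)
    | succ n ih =>
      intro f hf
      obtain ⟨g, hg⟩ := hd f
      have h1 : B 1 g ^ 2 - 4 * q g = 0 := by
        by_cases h0 : B 1 g ^ 2 - 4 * q g = 0
        · exact h0
        · exact ih g (by omega)
      rw [hg, h1, mul_zero]
  have h0 := key _ f le_rfl
  have he : Even (B 1 f) := by
    have h1 : Even (B 1 f ^ 2) := ⟨2 * q f, by linarith⟩
    exact (Int.even_pow.1 h1).1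
  obtain ⟨m, hm⟩ := he
  refine ⟨m, ?_⟩
  have h1 : q (f + (-m) • (1 : R)) = 0 := by
    rw [hqB, hqz, hq1, hB, hz]
    have h2 : q f = m ^ 2 := by
      rw [hm] at h0
      linarith [h0, show (m + m) ^ 2 = 4 * m ^ 2 by ring]
    rw [h2, hm]
    ring
  have h2 := LibAC84E.eq_zero_of q par mul pos h1
  rw [neg_smul] at h2
  exact (sub_eq_zero.1 (by rw [sub_eq_add_neg]; exact h2))

end Pool.Agent.LibNC34
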