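import Pool.Agent.LibNC34.Half
import Pool.Agent.LibNC34.Alg
import Pool.Agent.LibAC84E.End

/-!
[NC34 Int] endomorphism rings (MEDIUM, cites Half and Alg with their sorries). As in the proof of
`exists_cm` (LibAC84E/End.lean): `letI : CommRing (Hm E E) := endRing LibAC6.comp_comm`, the degree `q` with
`choose q .. using cl_deg` satisfies `par`, `mul`, `pos` (copy that proof up to the application of `hurwitz`). Hypothesis of
`int_of_half`: for `φ` which kills the points of order two: `exists_half`; for `φ` which fixes them: `φ - 1` kills them.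
`Nontrivial`: as there.
-/

open WeierstrassCurve Pool.Agent.LibBH2 Pool.Agent.LibIG50 Pool.Agent.LibCHd Pool.Agent.LibGG
  Pool.Agent.LibAC34
open scoped Classical

namespace Pool.Agent.LibNC34

theorem hm_int (E : WeierstrassCurve Qb) [E.IsElliptic]
    (h : ∀ φ : Hm E E, (∀ T : E.toAffine.Point, 2 • T = 0 → φ.k0 T = 0) ∨
      ∀ T : E.toAffine.Point, 2 • T = 0 → φ.k0 T = T) (φ : Hm E E) :
    ∃ m : ℤ, ∀ (F : Type) [Field F] [Algebra Qb F] (P : (E⁄F).toAffine.Point),
      φ.f F P = m • P := by
  letI : CommRing (Hm E E) := LibAC84E.endRing LibAC6.comp_comm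
  have hadd' : ∀ (f g : Hm E E) (F : Type) [Field F] [Algebra Qb F]
      (P : (E⁄F).toAffine.Point), (f + g).f F P = f.f F P + g.f F P := fun _ _ _ _ _ _ => rfl
  have hneg' : ∀ (f : Hm E E) (F : Type) [Field F] [Algebra Qb F]
      (P : (E⁄F).toAffine.Point), (-f).f F P = -f.f F P := fun _ _ _ _ _ => rfl
  have hzero' : ∀ (F : Type) [Field F] [Algebra Qb F]
      (P : (E⁄F).toAffine.Point), (0 : Hm E E).f F P = 0 := fun _ _ _ _ => rfl
  have hmul' : ∀ (f g : Hm E E) (F : Type) [Field F] [Algebra Qb F]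
      (P : (E⁄F).toAffine.Point), (f * g).f F P = f.f F (g.f F P) := fun _ _ _ _ _ _ => rfl
  have hone' : ∀ (F : Type) [Field F] [Algebra Qb F]
      (P : (E⁄F).toAffine.Point), (1 : Hm E E).f F P = P := fun _ _ _ _ => rfl
  have hsub' : ∀ (f g : Hm E E) (F : Type) [Field F] [Algebra Qb F]
      (P : (E⁄F).toAffine.Point), (f - g).f F P = f.f F P - g.f F P := by
    intro f g F _ _ P
    rw [sub_eq_add_neg, hadd', hneg', sub_eq_add_neg]
  have hz' : ∀ (m : ℤ) (f : Hm E E) (F : Type) [Field F] [Algebra Qb F]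
      (P : (E⁄F).toAffine.Point), (m • f).f F P = m • f.f F P := by
    intro m f F _ _ P
    let l : Hm E E →+ (E⁄F).toAffine.Point :=
      { toFun := fun f => f.f F P, map_zero' := rfl, map_add' := fun _ _ => rfl }
    exact map_zsmul l m f
  choose q hq1 hq2 hq3 using LibAC84E.cl_deg (E := E)
  have hcl : ∀ f : Hm E E, LibAC84E.cl (f.f _ (genPt E)) =
      q f • LibAC84E.cl (genPt E) := fun f => hq3 f (Hm.id E)
  have hinj : ∀ a b : ℤ, a • LibAC84E.cl (genPt E) =
      b • LibAC84E.cl (genPt E) → a = b := by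
    intro a b h
    exact sub_eq_zero.1 (LibAC84E.cl_free (a - b) (by rw [sub_smul, h, sub_self]))
  rcases subsingleton_or_nontrivial (Hm E E) with hR | hR
  · refine ⟨0, fun F _ _ P => ?_⟩
    rw [Subsingleton.elim φ 0, hzero', zero_smul]
  obtain ⟨m, hm⟩ := int_of_half (R := Hm E E) (fun f => (q f : ℤ))
    (by
      intro f g
      apply hinj
      have := LibAC84E.cl_par f g
      rw [← hadd', ← hsub', hcl, hcl, hcl, hcl] at this
      have e1 : (2 * (q f : ℤ) + 2 * (q g : ℤ)) = ((2 * q f + 2 * q g : ℕ) : ℤ) := by push_cast; rfl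
      rw [e1, add_zsmul, natCast_zsmul, natCast_zsmul, natCast_zsmul, this, add_nsmul, mul_nsmul',
        mul_nsmul'])
    (by
      intro f g
      apply hinj
      have e1 := hcl (f * g)
      rw [hmul', hq3 g f, hcl f] at e1
      rw [← Nat.cast_mul, natCast_zsmul, natCast_zsmul, mul_nsmul, e1])
    (by
      intro f hf
      have : 0 < q f := by
        apply hq1
        rcases LibAC36.zero_or f with h | h
        · exact absurd (LibAC84E.hm_ext h) hf
        · exact h
      exact_mod_cast this)
    (by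
      intro f
      rcases h f with h0 | h0
      · obtain ⟨ψ, hψ⟩ := exists_half f h0
        refine ⟨ψ, Or.inl (LibAC84E.hm_ext fun F _ _ P => ?_)⟩
        rw [hadd', hψ, two_nsmul]
      · have h1 : ∀ T : E.toAffine.Point, 2 • T = 0 → (f - 1).k0 T = 0 := by
          intro T hT
          have e1 : (f - 1).f Qb (constPt Qb T) = 0 := by
            rw [hsub', hone', Hm.const, h0 T hT, sub_self]
          unfold Hm.k0
          rw [e1]
          rfl
        obtain ⟨ψ, hψ⟩ := exists_half (f - 1) h1
        refine ⟨ψ, Or.inr (LibAC84E.hm_ext fun F _ _ P => ?_)⟩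
        have e2 := hψ F P
        rw [hsub', hone', two_nsmul] at e2
        rw [hadd', hadd', hone', ← e2, add_sub_cancel])
    φ
  refine ⟨m, fun F _ _ P => ?_⟩
  rw [hm, hz', hone']

end Pool.Agent.LibNC34
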