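import Pool.Agent.LibNC34.K
import Pool.Agent.LibNC34.A3
import Pool.Agent.LibNC34.Int
import Pool.Agent.LibER34.NoCM

/-!
The curves of `rkSet` have no complex multiplication.
-/

open WeierstrassCurve Pool.Agent.LibBH2 Pool.Agent.LibIG50 Pool.Agent.LibCHd Pool.Agent.LibGG
  Pool.Agent.LibAC34 Pool.Agent.LibAF11 Pool.Agent.LibNI34 Rk1
open scoped Classical

namespace Pool.Agent.LibNC34

theorem Fin_nonsing {s t : Qb} (hV : (lc s t).IsElliptic) {x y : Qb}
    (h : y ^ 2 = x * (x - s) * (x - t)) : (lc s t).toAffine.Nonsingular x y := by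
  refine (Affine.equation_iff_nonsingular_of_Δ_ne_zero hV.isUnit.ne_zero).1 ?_
  rw [Affine.equation_iff]
  simp only [lc]
  linear_combination h

theorem Fin_eq {s t x y : Qb} (h : (lc s t).toAffine.Nonsingular x y) :
    y ^ 2 = x * (x - s) * (x - t) := by
  have h1 := ((lc s t).toAffine.equation_iff x y).1 h.1
  simp only [lc] at h1
  linear_combination h1

/-- the points of order two -/
theorem Fin_pt {s t : Qb} (hV : (lc s t).IsElliptic) {e : Qb} (he : e * (e - s) * (e - t) = 0) :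
    ∃ T : (lc s t).toAffine.Point, T ≠ 0 ∧ xc T = e ∧ 2 • T = 0 := by
  have h1 : (0 : Qb) ^ 2 = e * (e - s) * (e - t) := by rw [he]; ring
  refine ⟨.some e 0 (Fin_nonsing hV h1), fun h => (by cases h), rfl, ?_⟩
  rw [two_smul, add_eq_zero_iff_eq_neg, Affine.Point.neg_some]
  congr 1
  rw [Affine.negY]
  simp only [lc]
  ring

theorem Fin_inj {s t : Qb} (P Q : (lc s t).toAffine.Point) (hP : P ≠ 0) (hQ : Q ≠ 0)
    (h : xc P * (xc P - s) * (xc P - t) = 0) (hx : xc P = xc Q) : P = Q := by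
  match P, Q, hP, hQ, h, hx with
  | .zero, _, hP, _, _, _ => exact absurd rfl hP
  | .some _ _ _, .zero, _, hQ, _, _ => exact absurd rfl hQ
  | .some x y hxy, .some x' y' hxy', _, _, h, hx =>
    rw [xc_some] at h
    have hx' : x = x' := hx
    subst hx'
    have h1 := Fin_eq hxy
    have h1' := Fin_eq hxy'
    rw [h] at h1 h1'
    have h2 : y = 0 := pow_eq_zero_iff (two_ne_zero) |>.1 h1
    have h2' : y' = 0 := pow_eq_zero_iff (two_ne_zero) |>.1 h1'
    subst h2
    subst h2'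
    rfl

theorem Fin_main {s t : Qb} (hV : (lc s t).IsElliptic)
    (h : ∀ e : Qb, e * (e - s) * (e - t) = 0 →
      ∃ (f : AbsoluteValue Qb ℝ) (ρ : ℝ), Odd2 f ∧ 0 < ρ ∧ Apex f ρ s t e ∧ Near f ρ s t e)
    (φ : Hm (lc s t) (lc s t)) :
    (∀ T : (lc s t).toAffine.Point, 2 • T = 0 → φ.k0 T = 0) ∨
      ∀ T : (lc s t).toAffine.Point, 2 • T = 0 → φ.k0 T = T := by
  have hΔ : s ≠ 0 ∧ t ≠ 0 ∧ s ≠ t := by
    have h1 : (lc s t).Δ = 16 * s ^ 2 * t ^ 2 * (s - t) ^ 2 := by
      simp only [lc, WeierstrassCurve.Δ, WeierstrassCurve.b₂, WeierstrassCurve.b₄,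
        WeierstrassCurve.b₆, WeierstrassCurve.b₈]
      ring
    have h2 : (lc s t).Δ ≠ 0 := hV.isUnit.ne_zero
    rw [h1] at h2
    refine ⟨?_, ?_, ?_⟩
    · rintro rfl
      exact h2 (by ring)
    · rintro rfl
      exact h2 (by ring)
    · rintro rfl
      exact h2 (by ring)
  obtain ⟨hs0, ht0, hst⟩ := hΔ
  have hfix : ∀ e : Qb, e * (e - s) * (e - t) = 0 → ∀ T : (lc s t).toAffine.Point, T ≠ 0 →
      xc T = e → φ.k0 T = 0 ∨ φ.k0 T = T := by
    intro e he T hT hTe
    obtain ⟨f, ρ, hf, hρ, ha, hn⟩ := h e he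
    exact fix_apex hf hρ ha hn hV φ T hT hTe
  have e0 : (0 : Qb) * (0 - s) * (0 - t) = 0 := by ring
  have es : s * (s - s) * (s - t) = 0 := by ring
  have et : t * (t - s) * (t - t) = 0 := by ring
  obtain ⟨A, hA0, hAx, hA2⟩ := Fin_pt hV e0
  obtain ⟨B, hB0, hBx, hB2⟩ := Fin_pt hV es
  obtain ⟨C, hC0, hCx, hC2⟩ := Fin_pt hV et
  have hroot : ∀ T : (lc s t).toAffine.Point, xc T = 0 ∨ xc T = s ∨ xc T = t →
      xc T * (xc T - s) * (xc T - t) = 0 := by
    rintro T (h1 | h1 | h1)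
    · rw [h1]; exact e0
    · rw [h1]; exact es
    · rw [h1]; exact et
  have hall : ∀ T : (lc s t).toAffine.Point, 2 • T = 0 → T = 0 ∨ T = A ∨ T = B ∨ T = C := by
    intro T hT
    by_cases hT0 : T = 0
    · exact Or.inl hT0
    right
    have h1 := xc_two T hT hT0
    have h2 := hroot T h1
    rcases h1 with h1 | h1 | h1
    · exact Or.inl (Fin_inj T A hT0 hA0 h2 (h1.trans hAx.symm))
    · exact Or.inr (Or.inl (Fin_inj T B hT0 hB0 h2 (h1.trans hBx.symm)))
    · exact Or.inr (Or.inr (Fin_inj T C hT0 hC0 h2 (h1.trans hCx.symm)))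
  have hAB : A ≠ B := fun h1 => hs0 (by rw [← hBx, ← h1, hAx])
  have hAC : A ≠ C := fun h1 => ht0 (by rw [← hCx, ← h1, hAx])
  have hBC : B ≠ C := fun h1 => hst (by rw [← hBx, h1, hCx])
  have hsum : A + B = C := by
    have h1 : 2 • (A + B) = 0 := by rw [nsmul_add, hA2, hB2, add_zero]
    have hBn : -B = B := by
      rw [two_smul] at hB2
      exact (eq_neg_of_add_eq_zero_left hB2).symm
    rcases hall _ h1 with h2 | h2 | h2 | h2
    · exact absurd ((eq_neg_of_add_eq_zero_left h2).trans hBn) hAB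
    · exact absurd (add_eq_left.1 h2) hB0
    · exact absurd (add_eq_right.1 h2) hA0
    · exact h2
  have hk : φ.k0 C = φ.k0 A + φ.k0 B := by
    rw [← hsum]
    exact map_add φ.k0H A B
  have hk0 : φ.k0 0 = 0 := map_zero φ.k0H
  rcases hfix 0 e0 A hA0 hAx with a1 | a1
  · rcases hfix s es B hB0 hBx with b1 | b1
    · left
      intro T hT
      rcases hall T hT with rfl | rfl | rfl | rfl
      · exact hk0
      · exact a1
      · exact b1
      · rw [hk, a1, b1, add_zero]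
    · exfalso
      rw [a1, b1, zero_add] at hk
      rcases hfix t et C hC0 hCx with c1 | c1
      · exact hB0 (hk.symm.trans c1)
      · exact hBC (hk.symm.trans c1)
  · rcases hfix s es B hB0 hBx with b1 | b1
    · exfalso
      rw [a1, b1, add_zero] at hk
      rcases hfix t et C hC0 hCx with c1 | c1
      · exact hA0 (hk.symm.trans c1)
      · exact hAC (hk.symm.trans c1)
    · right
      intro T hT
      rcases hall T hT with rfl | rfl | rfl | rfl
      · exact hk0
      · exact a1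
      · exact b1
      · rw [hk, a1, b1, hsum]

theorem noCM_rkSet {W : WeierstrassCurve ℚ} (hW : W ∈ rkSet) : LibER34.NoCM (W⁄Qb) := by
  have hell : W.IsElliptic := ⟨isUnit_iff_ne_zero.2 (rkSet_rank hW).1⟩
  have hell' : (W⁄Qb).IsElliptic := inferInstanceAs (W.map (algebraMap ℚ Qb)).IsElliptic
  obtain ⟨s, t, hlc, hA⟩ := exists_apex hW
  rw [hlc] at hell' ⊢
  intro φ
  obtain ⟨m, hm⟩ := hm_int (lc s t) (fun ψ => Fin_main hell' hA ψ) φ.toHm
  refine ⟨1, m, one_ne_zero, fun F _ _ P => ?_⟩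
  rw [one_smul]
  exact hm F P

end Pool.Agent.LibNC34
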