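import Pool.Agent.LibNC34.G

/-!
The special point of order two of an elliptic curve with (potentially) multiplicative reduction.
-/

open WeierstrassCurve Pool.Agent.LibBH2 Pool.Agent.LibIG50 Pool.Agent.LibNI34
open scoped Classical

namespace Pool.Agent.LibNC34

/-- `e` is one of the numbers `0`, `s`, `t`, and its distances from the other two are equal to `ρ`, the
largest of the distances -/
structure Apex (f : AbsoluteValue Qb ℝ) (ρ : ℝ) (s t e : Qb) : Prop where
  hs : f s ≤ ρ
  ht : f t ≤ ρ
  root : e * (e - s) * (e - t) = 0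
  d : f (3 * e ^ 2 - 2 * (s + t) * e + s * t) = ρ ^ 2

/-- the other two are closer together -/
def Near (f : AbsoluteValue Qb ℝ) (ρ : ℝ) (s t e : Qb) : Prop :=
  ∀ u v : Qb, u * (u - s) * (u - t) = 0 → v * (v - s) * (v - t) = 0 → u ≠ e → v ≠ e → u ≠ v →
    f (u - v) < ρ

end Pool.Agent.LibNC34
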