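import Pool.Agent.LibNI34.G3

/-!
The kernel of the reduction, also for curves with bad reduction.
-/

open WeierstrassCurve Pool.Agent.LibBH2 Pool.Agent.LibIG50 Pool.Agent.LibNI34
open scoped Classical

namespace Pool.Agent.LibNC34

variable {f : AbsoluteValue Qb ℝ} {ρ : ℝ} {s t : Qb}

private theorem G_eq {x y : Qb} (h : (lc s t).toAffine.Nonsingular x y) :
    y ^ 2 = x ^ 3 - (s + t) * x ^ 2 + s * t * x := by
  have h1 := (Affine.equation_iff x y).1 h.1
  simp only [lc, WeierstrassCurve.toAffine] at h1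
  linear_combination h1

private theorem G_est (hf : Odd2 f) (hρ : 0 < ρ) (hs : f s ≤ ρ) (ht : f t ≤ ρ) {u v x y : Qb}
    (hv : v ^ 2 = u ^ 3 - (s + t) * u ^ 2 + s * t * u)
    (hy : y ^ 2 = x ^ 3 - (s + t) * x ^ 2 + s * t * x) (hx : f x ≤ ρ) (hu : ρ < f u) :
    f (((y - v) / (x - u)) ^ 2 + (s + t) - x - u) ≤ ρ := by
  obtain ⟨r, hr⟩ : ∃ r, r = f u := ⟨_, rfl⟩
  rw [← hr] at hu
  have hr0 : 0 < r := hρ.trans hu
  have hadd : ∀ (M : ℝ) (a b : Qb), f a ≤ M → f b ≤ M → f (a + b) ≤ M := fun M a b h1 h2 =>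
    (hf.na a b).trans (max_le h1 h2)
  have hsub : ∀ (M : ℝ) (a b : Qb), f a ≤ M → f b ≤ M → f (a - b) ≤ M := fun M a b h1 h2 => by
    rw [sub_eq_add_neg]
    exact hadd M a (-b) h1 (by rwa [f.map_neg])
  have hx0 : 0 ≤ f x := f.nonneg x
  have hxr : f x ≤ r := hx.trans hu.le
  have hst : f (s + t) ≤ ρ := hadd ρ s t hs ht
  -- `x - u`
  have hD : r ≤ f (x - u) := by
    by_contra hc
    push Not at hc
    have h1 := hf.na (u - x) x
    rw [sub_add_cancel, ← hr, f.map_sub u x] at h1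
    rcases le_max_iff.1 h1 with h2 | h2
    · exact absurd h2 (not_le.2 hc)
    · linarith
  have hD0 : x - u ≠ 0 := by
    intro h
    rw [h, f.map_zero] at hD
    linarith
  -- squares of the second coordinates
  have hy2 : f y ^ 2 ≤ ρ ^ 3 := by
    rw [← f.map_pow, hy, show x ^ 3 - (s + t) * x ^ 2 + s * t * x = x * ((x - s) * (x - t)) by ring,
      f.map_mul, f.map_mul]
    have h1 : f (x - s) ≤ ρ := hsub ρ x s hx hs
    have h2 : f (x - t) ≤ ρ := hsub ρ x t hx ht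
    calc f x * (f (x - s) * f (x - t)) ≤ ρ * (ρ * ρ) :=
          mul_le_mul hx (mul_le_mul h1 h2 (f.nonneg _) hρ.le)
            (mul_nonneg (f.nonneg _) (f.nonneg _)) hρ.le
      _ = ρ ^ 3 := by ring
  have hv2 : f v ^ 2 ≤ r ^ 3 := by
    rw [← f.map_pow, hv, show u ^ 3 - (s + t) * u ^ 2 + s * t * u = u * ((u - s) * (u - t)) by ring,
      f.map_mul, f.map_mul, ← hr]
    have h1 : f (u - s) ≤ r := hsub r u s hr.ge (hs.trans hu.le)
    have h2 : f (u - t) ≤ r := hsub r u t hr.ge (ht.trans hu.le)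
    calc r * (f (u - s) * f (u - t)) ≤ r * (r * r) :=
          mul_le_mul_of_nonneg_left (mul_le_mul h1 h2 (f.nonneg _) hr0.le) hr0.le
      _ = r ^ 3 := by ring
  have hyv : f y * f v ≤ r ^ 2 * ρ := by
    have h1 : (f y * f v) ^ 2 ≤ (r ^ 2 * ρ) ^ 2 := by
      rw [mul_pow]
      calc f y ^ 2 * f v ^ 2 ≤ ρ ^ 3 * r ^ 3 :=
            mul_le_mul hy2 hv2 (by positivity) (by positivity)
        _ = (ρ ^ 2 * r ^ 3) * ρ := by ring
        _ ≤ (ρ ^ 2 * r ^ 3) * r := mul_le_mul_of_nonneg_left hu.le (by positivity)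
        _ = (r ^ 2 * ρ) ^ 2 := by ring
    exact (pow_le_pow_iff_left₀ (mul_nonneg (f.nonneg _) (f.nonneg _)) (by positivity)
      two_ne_zero).1 h1
  -- the polynomial
  have key : (x - u) ^ 2 * ((((y - v) / (x - u)) ^ 2 + (s + t) - x - u) + x) =
      y ^ 2 - 2 * (y * v) + s * t * u + (s + t) * x ^ 2 - 2 * ((s + t) * (x * u)) - u * x ^ 2 +
        2 * (x * u ^ 2) := by
    have h1 : (x - u) ^ 2 * ((y - v) / (x - u)) ^ 2 = (y - v) ^ 2 := by
      rw [← mul_pow, mul_div_cancel₀ _ hD0]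
    linear_combination h1 + hv
  have hρr : ρ ^ 2 ≤ r ^ 2 := pow_le_pow_left₀ hρ.le hu.le 2
  have hx2 : f x ^ 2 ≤ ρ ^ 2 := pow_le_pow_left₀ hx0 hx 2
  have t1 : f (y ^ 2) ≤ r ^ 2 * ρ := by
    rw [f.map_pow]
    calc f y ^ 2 ≤ ρ ^ 3 := hy2
      _ = ρ ^ 2 * ρ := by ring
      _ ≤ r ^ 2 * ρ := mul_le_mul_of_nonneg_right hρr hρ.le
  have t2 : f (2 * (y * v)) ≤ r ^ 2 * ρ := by
    rw [f.map_mul, hf.two, one_mul, f.map_mul]
    exact hyv
  have t3 : f (s * t * u) ≤ r ^ 2 * ρ := by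
    rw [f.map_mul, f.map_mul, ← hr]
    calc f s * f t * r ≤ r * ρ * r :=
          mul_le_mul_of_nonneg_right (mul_le_mul (hs.trans hu.le) ht (f.nonneg _) hr0.le) hr0.le
      _ = r ^ 2 * ρ := by ring
  have t4 : f ((s + t) * x ^ 2) ≤ r ^ 2 * ρ := by
    rw [f.map_mul, f.map_pow]
    calc f (s + t) * f x ^ 2 ≤ ρ * ρ ^ 2 := mul_le_mul hst hx2 (by positivity) hρ.le
      _ ≤ ρ * r ^ 2 := mul_le_mul_of_nonneg_left hρr hρ.le
      _ = r ^ 2 * ρ := by ring
  have t5 : f (2 * ((s + t) * (x * u))) ≤ r ^ 2 * ρ := by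
    rw [f.map_mul, hf.two, one_mul, f.map_mul, f.map_mul, ← hr]
    calc f (s + t) * (f x * r) ≤ ρ * (r * r) :=
          mul_le_mul hst (mul_le_mul_of_nonneg_right hxr hr0.le) (by positivity) hρ.le
      _ = r ^ 2 * ρ := by ring
  have t6 : f (u * x ^ 2) ≤ r ^ 2 * ρ := by
    rw [f.map_mul, f.map_pow, ← hr]
    calc r * f x ^ 2 = r * (f x * f x) := by ring
      _ ≤ r * (r * ρ) :=
          mul_le_mul_of_nonneg_left (mul_le_mul hxr hx hx0 hr0.le) hr0.le
      _ = r ^ 2 * ρ := by ring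
  have t7 : f (2 * (x * u ^ 2)) ≤ r ^ 2 * ρ := by
    rw [f.map_mul, hf.two, one_mul, f.map_mul, f.map_pow, ← hr, mul_comm]
    exact mul_le_mul_of_nonneg_left hx (by positivity)
  have hsum := hadd _ _ _ (hsub _ _ _ (hsub _ _ _ (hadd _ _ _ (hadd _ _ _ (hsub _ _ _ t1 t2) t3)
    t4) t5) t6) t7
  rw [← key, f.map_mul, f.map_pow] at hsum
  obtain ⟨X, hX⟩ : ∃ X, X = ((y - v) / (x - u)) ^ 2 + (s + t) - x - u := ⟨_, rfl⟩
  rw [← hX] at hsum ⊢
  have h1 : f (X + x) ≤ ρ := by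
    have h2 : r ^ 2 * f (X + x) ≤ r ^ 2 * ρ :=
      (mul_le_mul_of_nonneg_right (pow_le_pow_left₀ hr0.le hD 2) (f.nonneg _)).trans hsum
    exact le_of_mul_le_mul_left h2 (by positivity)
  have h2 := hsub ρ (X + x) x h1 hx
  rwa [add_sub_cancel_right] at h2

theorem big_sub' (hf : Odd2 f) (hρ : 0 < ρ) (hs : f s ≤ ρ) (ht : f t ≤ ρ) (R P : (lc s t).toAffine.Point)
    (hR : ¬ Big f ρ R) (hP : Big f ρ P) : ¬ Big f ρ (R + P) := by
  match R, P with
  | .zero, P => exact absurd (Or.inl rfl) hR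
  | .some x y hxy, .zero =>
    have h1 : (Affine.Point.some x y hxy : (lc s t).toAffine.Point) + .zero =
        .some x y hxy := add_zero _
    rw [h1]
    exact hR
  | .some x y hxy, .some u v huv =>
    have hx : f x ≤ ρ := by
      by_contra hc
      exact hR (Or.inr (not_le.1 hc))
    have hu : ρ < f u := by
      rcases hP with h1 | h1
      · exact absurd h1 (Affine.Point.some_ne_zero huv)
      · exact h1
    have hxu : x ≠ u := by
      rintro rfl
      linarith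
    rw [Affine.Point.add_of_X_ne hxu]
    rintro (h1 | h1)
    · exact absurd h1 (Affine.Point.some_ne_zero _)
    · rw [xc_some, Affine.slope_of_X_ne hxu] at h1
      have h2 := G_est hf hρ hs ht (G_eq huv) (G_eq hxy) hx hu
      have h3 : (lc s t).toAffine.addX x u ((y - v) / (x - u)) =
          ((y - v) / (x - u)) ^ 2 + (s + t) - x - u := by
        simp only [Affine.addX, lc, WeierstrassCurve.toAffine]
        ring
      rw [h3] at h1
      linarith

private theorem G_neg {P : (lc s t).toAffine.Point} (hP : Big f ρ P) : Big f ρ (-P) := by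
  rcases hP with h | h
  · left
    rw [h, neg_zero]
  · right
    rwa [xc_neg]

theorem big_add' (hf : Odd2 f) (hρ : 0 < ρ) (hs : f s ≤ ρ) (ht : f t ≤ ρ) (P Q : (lc s t).toAffine.Point)
    (hP : Big f ρ P) (hQ : Big f ρ Q) : Big f ρ (P + Q) := by
  by_contra hc
  have h1 := big_sub' hf hρ hs ht (P + Q) (-P) hc (G_neg hP)
  apply h1
  have h2 : P + Q + -P = Q := by abel
  rwa [h2]

theorem big_smul' (hf : Odd2 f) (hρ : 0 < ρ) (hs : f s ≤ ρ) (ht : f t ≤ ρ) (P : (lc s t).toAffine.Point)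
    (hP : Big f ρ P) (n : ℕ) : Big f ρ (n • P) := by
  induction n with
  | zero =>
    left
    exact zero_nsmul P
  | succ n ih =>
    rw [succ_nsmul]
    exact big_add' hf hρ hs ht _ _ ih hP

theorem not_big' (hf : Odd2 f) (hρ : 0 < ρ) (hs : f s ≤ ρ) (ht : f t ≤ ρ) (R : (lc s t).toAffine.Point)
    {n : ℕ} (hn : 0 < n) (hR : n • R = 0) (hodd : ∀ b : ℕ, Odd b → b • R ≠ 0) :
    ¬ Big f ρ R := by
  intro hB
  obtain ⟨a, b, hb, rfl⟩ := Nat.exists_eq_two_pow_mul_odd hn.ne'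
  have h1 : b • R ≠ 0 := hodd b hb
  have h2 : ∃ c, 2 ^ c • (b • R) = 0 := ⟨a, by rw [← mul_smul, hR]⟩
  have hc := Nat.find_spec h2
  have hmin : ∀ c, c < Nat.find h2 → 2 ^ c • (b • R) ≠ 0 := fun c hc => Nat.find_min h2 hc
  generalize Nat.find h2 = c at hc hmin
  cases c with
  | zero =>
    rw [pow_zero, one_smul] at hc
    exact h1 hc
  | succ c =>
    have h3 : 2 ^ c • (b • R) ≠ 0 := hmin c (Nat.lt_succ_self c)
    have h4 : 2 • (2 ^ c • (b • R)) = 0 := by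
      rw [← mul_smul, ← pow_succ']
      exact hc
    have h5 : Big f ρ (2 ^ c • (b • R)) := big_smul' hf hρ hs ht _ (big_smul' hf hρ hs ht _ hB b) _
    have h6 : ρ < f (xc (2 ^ c • (b • R))) := h5.resolve_left h3
    rcases xc_two _ h4 h3 with h7 | h7 | h7
    · rw [h7, map_zero] at h6
      linarith
    · rw [h7] at h6
      linarith
    · rw [h7] at h6
      linarith

end Pool.Agent.LibNC34
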