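import Pool.Agent.LibAC36.Dual
import Pool.Agent.LibNI34.Defs

/-!
[NC34 Half] division of homomorphisms by two (MEDIUM/STRONG: adaptation of the construction of the dual
homomorphism in LibAC36/Dual.lean). There, for `φ : Hm V W` and `n` with `φ.k0 p = 0 → n • p = 0`, `dual_pt`, `dualFun`,
`dualFun_add`, `dualFun_nat`, `dualFun_sp` construct `ψ : Hm W V` with `ψ (φ P) = n • P`. The same works with an
arbitrary homomorphism `χ : Hm V U` with `φ.k0 p = 0 → χ.k0 p = 0` in place of `n •`: there is `ψ : Hm W U` with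
`ψ (φ P) = χ P` (`exists_factor`). Here `φ` is the multiplication by two (`V = W`; `Hm.id V + Hm.id V`, or the homomorphism
in the library with `f F P = 2 • P`; it is non-zero), `χ` the given homomorphism; `χ P = ψ (2 • P) = 2 • ψ P`.
-/

open WeierstrassCurve Pool.Agent.LibBH2 Pool.Agent.LibIG50 Pool.Agent.LibCHd Pool.Agent.LibGG
  Pool.Agent.LibAC34
open scoped Classical

namespace Pool.Agent.LibNC34

section factor

open Pool.Agent.LibCV66 Pool.Agent.LibAC36

variable {k : Type} [Field k] [CharZero k] [IsAlgClosed k] {V W U : WeierstrassCurve k}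
  [V.IsElliptic] [W.IsElliptic] [U.IsElliptic]

variable {φ : Hm V W} (hφ : ∃ p : V.toAffine.Point, φ.k0 p ≠ 0) {χ : Hm V U}
  (hn : ∀ (F : Type) [Field F] [Algebra k F] (P : (V⁄F).toAffine.Point), φ.f F P = 0 →
      χ.f F P = 0)

include hφ hn in
theorem fac_pt (F : Type) [Field F] [Algebra k F] (Q : (W⁄F).toAffine.Point) :
    ∃ R : (U⁄F).toAffine.Point, ∀ (G : Type) [Field G] [Algebra k G] (j : F →ₐ[k] G)
      (P : (V⁄G).toAffine.Point), φ.f G P = mp j Q → mp j R = χ.f G P := by
  obtain ⟨P₀, hP₀⟩ := surj hφ (AlgebraicClosure F)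
    (mp (IsScalarTower.toAlgHom k F (AlgebraicClosure F)) Q)
  have hker : ∀ (G : Type) [Field G] [Algebra k G] (P P' : (V⁄G).toAffine.Point),
      φ.f G P = φ.f G P' → χ.f G P = χ.f G P' := by
    intro G _ _ P P' h
    have h1 := hn G (P - P') (by rw [map_sub, h, sub_self])
    rw [map_sub, sub_eq_zero] at h1
    exact h1
  obtain ⟨R, hR⟩ := descent_closure (χ.f (AlgebraicClosure F) P₀) (fun σ => by
    rw [← χ.nat]
    apply hker
    rw [φ.nat, hP₀, LibCV66.mp_comp]
    congr 1
    congr 1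
    exact AlgHom.ext fun a => σ.commutes a)
  refine ⟨R, fun G _ _ j P hP => ?_⟩
  let ι : G →ₐ[k] AlgebraicClosure G := IsScalarTower.toAlgHom k G (AlgebraicClosure G)
  let _ : Algebra F (AlgebraicClosure G) := (ι.comp j).toRingHom.toAlgebra
  have hst : IsScalarTower k F (AlgebraicClosure G) := IsScalarTower.of_algebraMap_eq fun c =>
    ((ι.comp j).commutes c).symm
  let J : AlgebraicClosure F →ₐ[F] AlgebraicClosure G := IsAlgClosed.lift
  have h1 : (J.restrictScalars k).comp (IsScalarTower.toAlgHom k F (AlgebraicClosure F)) =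
      ι.comp j := AlgHom.ext fun a => J.commutes a
  have h2 : χ.f (AlgebraicClosure G) (mp (J.restrictScalars k) P₀) =
      χ.f (AlgebraicClosure G) (mp ι P) := by
    apply hker
    rw [φ.nat, hP₀, LibCV66.mp_comp, h1, φ.nat, hP, LibCV66.mp_comp]
  apply LibCV66.mp_injective ι
  rw [LibCV66.mp_comp, ← h1, ← LibCV66.mp_comp, hR, ← χ.nat, h2, χ.nat]

/-- the factor, as a function -/
noncomputable def facFun (F : Type) [Field F] [Algebra k F] (Q : (W⁄F).toAffine.Point) :
    (U⁄F).toAffine.Point :=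
  (fac_pt hφ hn F Q).choose

theorem facFun_spec {F : Type} [Field F] [Algebra k F] {Q : (W⁄F).toAffine.Point}
    {G : Type} [Field G] [Algebra k G] (j : F →ₐ[k] G) {P : (V⁄G).toAffine.Point}
    (h : φ.f G P = mp j Q) : mp j (facFun hφ hn F Q) = χ.f G P :=
  (fac_pt hφ hn F Q).choose_spec G j P h

theorem facFun_add (F : Type) [Field F] [Algebra k F] (Q Q' : (W⁄F).toAffine.Point) :
    facFun hφ hn F (Q + Q') = facFun hφ hn F Q + facFun hφ hn F Q' := by
  obtain ⟨P, hP⟩ := exists_up hφ F Q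
  obtain ⟨P', hP'⟩ := exists_up hφ F Q'
  apply LibCV66.mp_injective (IsScalarTower.toAlgHom k F (AlgebraicClosure F))
  rw [map_add, facFun_spec hφ hn _ hP, facFun_spec hφ hn _ hP',
    facFun_spec hφ hn _ (P := P + P') (by rw [map_add, map_add, hP, hP']), map_add]

theorem facFun_nat {F G : Type} [Field F] [Algebra k F] [Field G] [Algebra k G]
    (σ : F →ₐ[k] G) (Q : (W⁄F).toAffine.Point) :
    facFun hφ hn G (mp σ Q) = mp σ (facFun hφ hn F Q) := by
  obtain ⟨P, hP⟩ := exists_up hφ G (mp σ Q)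
  apply LibCV66.mp_injective (IsScalarTower.toAlgHom k G (AlgebraicClosure G))
  rw [facFun_spec hφ hn _ hP, LibCV66.mp_comp, facFun_spec hφ hn _ (P := P)]
  rw [hP, LibCV66.mp_comp]

theorem facFun_sp (K : Type) [Field K] [Algebra k K] (v : Place k K)
    (Q : (W⁄K).toAffine.Point) (q : (W⁄(RF v)).toAffine.Point) (h : SpR v Q q) :
    SpR v (facFun hφ hn K Q) (facFun hφ hn (RF v) q) := by
  obtain ⟨L, _, _, _, _, _, P, hP⟩ := exists_up_finite hφ K Q
  -- the geometric places
  let Ω := AlgebraicClosure (RF v)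
  let ε : RF v →ₐ[k] Ω := IsScalarTower.toAlgHom k (RF v) Ω
  let g : Geo k K Ω := ⟨v, ε⟩
  obtain ⟨hfin, hsum⟩ := fibre (K := L) g
  obtain ⟨p, hp⟩ : ∃ p : Geo k L Ω, Res (IsScalarTower.toAlgHom k K L) p g := by
    by_contra hcon
    push Not at hcon
    obtain ⟨t, ht⟩ := v.exists_uniformizer
    have h1 := hsum t
    have h2 : {p : Geo k L Ω | Res (IsScalarTower.toAlgHom k K L) p g} = ∅ := by
      rw [Set.eq_empty_iff_forall_notMem]
      exact hcon
    rw [h2] at h1
    simp only [Set.mem_empty_iff_false, finsum_false, finsum_zero] at h1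
    have h3 : g.1.ord t = 1 := ht
    rw [h3, mul_one] at h1
    have h4 : 0 < Module.finrank K L := Module.finrank_pos
    omega
  -- the value of `P`
  have h1 : φ.f Ω (ev p P) = mp ε q := by
    have h2 : φ.f (RF p.1) (rd p.1 V P) = rd p.1 W (φ.f L P) :=
      (rd_eq (φ.sp L p.1 _ _ (rd_spec p.1 P))).symm
    rw [ev_apply, φ.nat, h2, hP]
    have h3 := ev_res hp Q
    rw [ev_apply, ev_apply] at h3
    rw [h3]
    change mp ε (rd v W Q) = mp ε q
    rw [rd_eq h]
  have h4 := facFun_spec hφ hn ε h1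
  have h5 := facFun_spec hφ hn _ hP
  have h7 : χ.f Ω (ev p P) = ev p (χ.f L P) := by
    have h2 : χ.f (RF p.1) (rd p.1 V P) = rd p.1 U (χ.f L P) :=
      (rd_eq (χ.sp L p.1 _ _ (rd_spec p.1 P))).symm
    rw [ev_apply, χ.nat, h2, ev_apply]
  have h6 : rd v U (facFun hφ hn K Q) = facFun hφ hn (RF v) q := by
    apply LibCV66.mp_injective ε
    rw [h4, h7, ← h5, ev_res hp]
    rfl
  rw [← h6]
  exact rd_spec v _

/-- the factor -/
noncomputable def fac : Hm W U where
  f F _ _ := AddMonoidHom.mk' (facFun hφ hn F) (facFun_add hφ hn F)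
  nat _ _ _ _ _ _ σ Q := facFun_nat hφ hn σ Q
  sp K _ _ v Q q h := facFun_sp hφ hn K v Q q h

theorem mp_id' {E : WeierstrassCurve k} {F : Type} [Field F] [Algebra k F]
    (P : (E⁄F).toAffine.Point) : mp (AlgHom.id k F) P = P := by
  match P with
  | .zero => rfl
  | .some x y h => rfl

theorem fac_apply (F : Type) [Field F] [Algebra k F] (P : (V⁄F).toAffine.Point) :
    (fac hφ hn).f F (φ.f F P) = χ.f F P := by
  have h1 := facFun_spec hφ hn (AlgHom.id k F) (Q := φ.f F P) (P := P) (mp_id' _).symm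
  rw [mp_id'] at h1
  exact h1

end factor

section two

variable {k : Type} [Field k]

/-- the multiplication by two -/
noncomputable def two (V : WeierstrassCurve k) [V.IsElliptic] : Hm V V where
  f F _ _ := AddMonoidHom.mk' (fun P => (2 : ℤ) • P) fun P Q => smul_add _ _ _
  nat F G _ _ _ _ σ P := (map_zsmul (mp σ) 2 P).symm
  sp K _ _ v P p h := spR_zsmul 2 h

theorem two_apply (V : WeierstrassCurve k) [V.IsElliptic] (F : Type) [Field F] [Algebra k F]
    (P : (V⁄F).toAffine.Point) : (two V).f F P = 2 • P := by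
  change (2 : ℤ) • P = 2 • P
  rw [two_zsmul, two_nsmul]

theorem two_k0 [CharZero k] [IsAlgClosed k] (V : WeierstrassCurve k) [V.IsElliptic]
    (p : V.toAffine.Point) : (two V).k0 p = 2 • p := by
  apply Pool.Agent.LibAC36.constPt_injective k
  rw [← Hm.const, two_apply, two_nsmul, two_nsmul]
  exact (HG_const_add k p p).symm

theorem exists_not_two [CharZero k] [IsAlgClosed k] (V : WeierstrassCurve k) [V.IsElliptic] :
    ∃ p : V.toAffine.Point, (2 : ℕ) • p ≠ 0 := by
  -- a number which is not a root of the two-division polynomial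
  obtain ⟨x, hx⟩ : ∃ x : k, 4 * x ^ 3 + V.b₂ * x ^ 2 + 2 * V.b₄ * x + V.b₆ ≠ 0 := by
    by_contra hcon
    push Not at hcon
    have h0 := hcon 0
    have h1 := hcon 1
    have h2 := hcon (-1)
    have h3 := hcon 2
    have h4 : (24 : k) = 0 := by linear_combination h3 - 3 * h1 - h2 + 3 * h0
    have h5 : (24 : k) ≠ 0 := by norm_num
    exact h5 h4
  obtain ⟨y, hy⟩ := IsAlgClosed.exists_root (Polynomial.X ^ 2 + Polynomial.C (V.a₁ * x + V.a₃) *
      Polynomial.X + Polynomial.C (-(x ^ 3 + V.a₂ * x ^ 2 + V.a₄ * x + V.a₆))) (by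
        have h2 : (Polynomial.X ^ 2 + Polynomial.C (V.a₁ * x + V.a₃) *
          Polynomial.X + Polynomial.C (-(x ^ 3 + V.a₂ * x ^ 2 + V.a₄ * x + V.a₆)) :
            Polynomial k).degree = 2 := by compute_degree!
        rw [h2]
        norm_num)
  have hxy : V.toAffine.Equation x y := by
    rw [WeierstrassCurve.Affine.equation_iff]
    simp only [Polynomial.IsRoot.def, Polynomial.eval_add, Polynomial.eval_mul,
      Polynomial.eval_pow, Polynomial.eval_X, Polynomial.eval_C] at hy
    linear_combination hy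
  have hns : V.toAffine.Nonsingular x y := WeierstrassCurve.Affine.equation_iff_nonsingular.1 hxy
  refine ⟨.some x y hns, fun h => ?_⟩
  rw [two_nsmul, add_eq_zero_iff_eq_neg, WeierstrassCurve.Affine.Point.neg_some,
    WeierstrassCurve.Affine.Point.some.injEq] at h
  have h1 := h.2
  rw [WeierstrassCurve.Affine.negY] at h1
  apply hx
  rw [WeierstrassCurve.Affine.equation_iff] at hxy
  have h2 : 2 * y + V.a₁ * x + V.a₃ = 0 := by
    have h3 : y = -y - V.a₁ * x - V.a₃ := h1
    linear_combination h3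
  rw [WeierstrassCurve.b₂, WeierstrassCurve.b₄, WeierstrassCurve.b₆]
  have h4 : y ^ 2 + V.a₁ * x * y + V.a₃ * y = x ^ 3 + V.a₂ * x ^ 2 + V.a₄ * x + V.a₆ := hxy
  linear_combination (2 * y + V.a₁ * x + V.a₃) * h2 - 4 * h4

end two

theorem exists_half {V W : WeierstrassCurve Qb} [V.IsElliptic] [W.IsElliptic] (χ : Hm V W)
    (h : ∀ T : V.toAffine.Point, 2 • T = 0 → χ.k0 T = 0) :
    ∃ ψ : Hm V W, ∀ (F : Type) [Field F] [Algebra Qb F] (P : (V⁄F).toAffine.Point),
      χ.f F P = 2 • ψ.f F P := by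
  have hφ : ∃ p : V.toAffine.Point, (two V).k0 p ≠ 0 := by
    obtain ⟨p, hp⟩ := exists_not_two V
    exact ⟨p, by rwa [two_k0]⟩
  have hn : ∀ (F : Type) [Field F] [Algebra Qb F] (P : (V⁄F).toAffine.Point),
      (two V).f F P = 0 → χ.f F P = 0 := by
    intro F _ _ P hP
    obtain ⟨p, hp, rfl⟩ := Pool.Agent.LibAC36.ker_const hφ hP
    rw [two_k0] at hp
    rw [χ.const, h p hp]
    rfl
  refine ⟨fac hφ hn, fun F _ _ P => ?_⟩
  rw [← fac_apply hφ hn F P, two_apply, map_nsmul]

end Pool.Agent.LibNC34
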