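import Pool.Agent.LibNC34.Defs
import Pool.Agent.LibNI34.F2

/-!
[NC34 K] homomorphisms map the special point of order two to zero or to a special point (MEDIUM; adapt
LibNI34/F2.lean, whose private lemmas f2_* can be copied). `apex_image`, main estimate: let `T` be the point with
`xc T = e` and let `S` be a point with neither `S` nor `S + T` big (`Big f ρ`). Then `f (e - xc S) = ρ`: with `S = some x y`
(`x ≠ e`, otherwise `S = T`, `S + T = 0` is big), `xc (S + T) - e = (3 e ^ 2 - 2 (s + t) e + s t) / (x - e)`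
(slope `y / (x - e)`, `y ^ 2 = x (x - s) (x - t)`), both `f (x - e)` and `f (xc (S + T) - e)` are `≤ ρ` and their product is
`ρ ^ 2`. Points with `2 • φ.k0 S = 0`, `φ.k0 S ≠ 0` are not big: as `f2_notBig`, with `not_big'` (LibNC34/G). Now as `hM` in
LibNI34/F2: for a root `u` of `x (x - s') (x - t')` with `u ≠ e' = xc (φ.k0 T)`: `(N - u D)(e) = (e' - u) D(e)`, all the roots of
`N - u D` are `xc S` with `xc (φ.k0 S) = u`, so `φ.k0 S ≠ φ.k0 T` and `φ.k0 (S + T) ≠ 0` are of order two, `S`, `S + T` are not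
big, so `f (e' - u) * f (D.eval e) = f N.leadingCoeff * ρ ^ N.natDegree`; `ρ'` is the quotient.
`fix_apex`: if `φ.k0 T ≠ 0` then `e' = xc (φ.k0 T)` is a root; if `e' ≠ e` let `v` be the third root: `f (e' - e) = ρ`
(its product with `f (v - e)` is `ρ ^ 2`, both `≤ ρ`), `f (e' - v) < ρ` (`Near`), but `apex_image` gives equality. If
`e' = e` then `φ.k0 T = T` (`f2_eq_of_xc`).
-/

open WeierstrassCurve Pool.Agent.LibBH2 Pool.Agent.LibIG50 Pool.Agent.LibCHd Pool.Agent.LibGG
  Pool.Agent.LibAC34 Pool.Agent.LibAF11 Pool.Agent.LibNI34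
open scoped Classical

namespace Pool.Agent.LibNC34

private theorem f2_nonsing {s t x y : Qb} (hV : (lc s t).IsElliptic)
    (h : y ^ 2 = x * (x - s) * (x - t)) : (lc s t).toAffine.Nonsingular x y := by
  have : (lc s t).toAffine.IsElliptic := hV
  refine Affine.equation_iff_nonsingular.1 ?_
  rw [Affine.equation_iff]
  simp only [lc]
  linear_combination h

private theorem f2_eq {s t x y : Qb} (h : (lc s t).toAffine.Nonsingular x y) :
    y ^ 2 = x * (x - s) * (x - t) := by
  have h1 := ((lc s t).toAffine.equation_iff x y).1 h.1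
  simp only [lc] at h1
  linear_combination h1

private theorem f2_exists {s t : Qb} (hV : (lc s t).IsElliptic) (x : Qb) :
    ∃ S : (lc s t).toAffine.Point, S ≠ 0 ∧ xc S = x := by
  obtain ⟨y, hy⟩ := IsAlgClosed.exists_pow_nat_eq (x * (x - s) * (x - t)) (n := 2) (by norm_num)
  refine ⟨.some x y (f2_nonsing hV hy), ?_, rfl⟩
  intro h
  cases h

private theorem f2_two {s t : Qb} (P : (lc s t).toAffine.Point) (h0 : P ≠ 0)
    (h : xc P * (xc P - s) * (xc P - t) = 0) : 2 • P = 0 := by
  match P, h0, h with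
  | .zero, h0, _ => exact absurd rfl h0
  | .some x y hxy, _, h =>
    rw [xc_some] at h
    have h1 := f2_eq hxy
    rw [h] at h1
    have h2 : y = 0 := pow_eq_zero_iff (two_ne_zero) |>.1 h1
    rw [two_smul, add_eq_zero_iff_eq_neg, Affine.Point.neg_some]
    subst h2
    congr 1
    rw [Affine.negY]
    simp only [lc]
    ring

private theorem f2_eq_of_xc {s t : Qb} (P Q : (lc s t).toAffine.Point) (hP : P ≠ 0) (hQ : Q ≠ 0)
    (h : xc P * (xc P - s) * (xc P - t) = 0) (hx : xc P = xc Q) : P = Q := by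
  match P, Q, hP, hQ, h, hx with
  | .zero, _, hP, _, _, _ => exact absurd rfl hP
  | .some _ _ _, .zero, _, hQ, _, _ => exact absurd rfl hQ
  | .some x y hxy, .some x' y' hxy', _, _, h, hx =>
    rw [xc_some] at h
    have hx' : x = x' := hx
    subst hx'
    have h1 := f2_eq hxy
    have h1' := f2_eq hxy'
    rw [h] at h1 h1'
    have h2 : y = 0 := pow_eq_zero_iff (two_ne_zero) |>.1 h1
    have h2' : y' = 0 := pow_eq_zero_iff (two_ne_zero) |>.1 h1'
    subst h2
    subst h2'
    rfl

private theorem f2_prod {f : AbsoluteValue Qb ℝ} (hs : ∀ m : Multiset Qb, f m.prod = (m.map f).prod) (p : Polynomial Qb)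
    (x : Qb) : f (p.eval x) = f p.leadingCoeff * (p.roots.map fun r => f (x - r)).prod := by
  rw [(IsAlgClosed.splits p).eval_eq_prod_roots x, f.map_mul, hs, Multiset.map_map]
  rfl

private theorem K_notBig {f : AbsoluteValue Qb ℝ} {ρ : ℝ} {s t s' t' : Qb} (hf : Odd2 f)
    (hρ : 0 < ρ) (hs : f s ≤ ρ) (ht : f t ≤ ρ) (φ : Hm (lc s t) (lc s' t'))
    (hV : (lc s t).IsElliptic) (hW : (lc s' t').IsElliptic) (hφ : ∃ p, φ.k0 p ≠ 0)
    (R : (lc s t).toAffine.Point) (h2 : 2 • φ.k0 R = 0) (h0 : φ.k0 R ≠ 0) : ¬ Big f ρ R := by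
  obtain ⟨n, ψ, hn, h3, -⟩ := exists_dual φ hφ
  refine not_big' hf hρ hs ht R (n := n * 2) (by omega) ?_ fun b hb hR => ?_
  · rw [mul_smul, ← k0_mul φ ψ h3]
    have h4 : φ.k0 (2 • R) = 0 := by
      rw [← h2]
      exact map_nsmul φ.k0H 2 R
    rw [h4]
    exact map_zero ψ.k0H
  · have h5 : b • φ.k0 R = 0 := by
      have h6 : φ.k0 (b • R) = b • φ.k0 R := map_nsmul φ.k0H b R
      rw [← h6, hR]
      exact map_zero φ.k0H
    obtain ⟨c, rfl⟩ := hb
    rw [add_smul, mul_comm, mul_smul, h2, smul_zero, zero_add, one_smul] at h5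
    exact h0 h5

/-- the first coordinate of the sum with a point of order two -/
private theorem K_addX {s t x y e : Qb} (hT : (lc s t).toAffine.Nonsingular e 0)
    (hS : (lc s t).toAffine.Nonsingular x y) (hx : x ≠ e) :
    (xc (Affine.Point.some x y hS + Affine.Point.some e 0 hT) - e) * (x - e) =
      3 * e ^ 2 - 2 * (s + t) * e + s * t := by
  have hd : x - e ≠ 0 := sub_ne_zero.2 hx
  have h1 := f2_eq hS
  have h2 := f2_eq hT
  rw [Affine.Point.add_of_X_ne hx, xc_some, Affine.slope_of_X_ne hx]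
  simp only [Affine.addX, lc]
  have h3 : (y - 0) / (x - e) * ((y - 0) / (x - e)) * (x - e) ^ 2 = y ^ 2 := by
    field_simp
    ring
  refine mul_right_cancel₀ hd ?_
  linear_combination h3 + h1 - h2

private theorem K_dist {f : AbsoluteValue Qb ℝ} {ρ : ℝ} {s t e : Qb} (hf : Odd2 f)
    (hρ : 0 < ρ) (h : Apex f ρ s t e) (T : (lc s t).toAffine.Point) (hT : T ≠ 0) (hTe : xc T = e)
    (S : (lc s t).toAffine.Point) (hS : ¬ Big f ρ S) (hST : ¬ Big f ρ (S + T)) :
    f (e - xc S) = ρ := by
  have hsub : ∀ {a b : Qb}, f a ≤ ρ → f b ≤ ρ → f (a - b) ≤ ρ := fun {a b} h1 h2 => by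
    rw [sub_eq_add_neg]
    exact (hf.na a (-b)).trans (max_le h1 (by rwa [f.map_neg]))
  have he : f e ≤ ρ := by
    rcases mul_eq_zero.1 h.root with h1 | h1
    · rcases mul_eq_zero.1 h1 with h2 | h2
      · rw [h2, map_zero]
        exact hρ.le
      · rw [sub_eq_zero.1 h2]
        exact h.hs
    · rw [sub_eq_zero.1 h1]
      exact h.ht
  have hroot := h.root
  have h2T : 2 • T = 0 := f2_two T hT (by rw [hTe]; exact hroot)
  match S, T, hS, hT with
  | .zero, _, hS, _ => exact absurd (Or.inl rfl) hS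
  | .some _ _ _, .zero, _, hT => exact absurd rfl hT
  | .some x y hxy, .some e' z hez, hS, hT =>
    have hTe' : e' = e := hTe
    subst hTe'
    have hz : z = 0 := by
      have h1 := f2_eq hez
      rw [hroot] at h1
      exact pow_eq_zero_iff (two_ne_zero) |>.1 h1
    subst hz
    rw [xc_some]
    by_cases hx : x = e'
    · exfalso
      have h1 : (Affine.Point.some x y hxy : (lc s t).toAffine.Point) =
          Affine.Point.some e' 0 hez := by
        refine f2_eq_of_xc _ _ ?_ hT ?_ ?_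
        · intro h2
          cases h2
        · rw [xc_some, hx]
          exact hroot
        · exact hx
      apply hST
      left
      rw [h1, ← two_smul ℕ]
      exact h2T
    · have h1 := K_addX hez hxy hx
      have h2 : f x ≤ ρ := not_lt.1 fun h3 => hS (Or.inr h3)
      have h3 : f (xc (Affine.Point.some x y hxy + Affine.Point.some e' 0 hez :
          (lc s t).toAffine.Point)) ≤ ρ := not_lt.1 fun h3 => hST (Or.inr h3)
      have h4 := hsub h3 he
      have h5 := hsub h2 he
      have h6 := congrArg f h1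
      rw [f.map_mul, h.d] at h6
      rw [f.map_sub]
      refine le_antisymm h5 ?_
      by_contra h7
      push Not at h7
      have h8 := f.nonneg (x - e')
      have h9 : f (xc (Affine.Point.some x y hxy + Affine.Point.some e' 0 hez :
          (lc s t).toAffine.Point) - e') * f (x - e') < ρ ^ 2 := by
        calc _ ≤ ρ * f (x - e') := mul_le_mul_of_nonneg_right h4 h8
          _ < ρ * ρ := mul_lt_mul_of_pos_left h7 hρ
          _ = ρ ^ 2 := by ring
      linarith

theorem apex_image {f : AbsoluteValue Qb ℝ} {ρ : ℝ} {s t s' t' e : Qb} (hf : Odd2 f)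
    (hρ : 0 < ρ) (h : Apex f ρ s t e) (hV : (lc s t).IsElliptic) (hW : (lc s' t').IsElliptic)
    (φ : Hm (lc s t) (lc s' t')) (T : (lc s t).toAffine.Point) (hT : T ≠ 0) (hTe : xc T = e)
    (h0 : φ.k0 T ≠ 0) : ∃ ρ', ∀ u : Qb, u * (u - s') * (u - t') = 0 → u ≠ xc (φ.k0 T) →
      f (xc (φ.k0 T) - u) = ρ' := by
  have hφ : ∃ p, φ.k0 p ≠ 0 := ⟨T, h0⟩
  obtain ⟨N, D, hND, hD0, hdeg, hx⟩ := exists_ND hV hW φ hφ
  have hmp : ∀ m : Multiset Qb, f m.prod = (m.map f).prod := fun m => map_multiset_prod f m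
  have hN0 : N ≠ 0 := by
    rintro rfl
    rw [Polynomial.natDegree_zero] at hdeg
    exact absurd hdeg (Nat.not_lt_zero _)
  have hcop : ∀ x, D.eval x = 0 → N.eval x ≠ 0 := by
    intro x h1 h2
    obtain ⟨a, b, hab⟩ := hND
    have h3 := congrArg (Polynomial.eval x) hab
    rw [Polynomial.eval_add, Polynomial.eval_mul, Polynomial.eval_mul, h1, h2, mul_zero, mul_zero,
      add_zero, Polynomial.eval_one] at h3
    exact zero_ne_one h3
  have h2T : 2 • T = 0 := f2_two T hT (by rw [hTe]; exact h.root)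
  have h2φ : 2 • φ.k0 T = 0 := by
    have h1 : φ.k0 (2 • T) = 2 • φ.k0 T := map_nsmul φ.k0H 2 T
    rw [← h1, h2T]
    exact map_zero φ.k0H
  have hM : ∀ u : Qb, u * (u - s') * (u - t') = 0 → u ≠ xc (φ.k0 T) →
      f (xc (φ.k0 T) - u) * f (D.eval e) = f N.leadingCoeff * ρ ^ N.natDegree := by
    intro u hu hne
    have hlt : (Polynomial.C u * D).degree < N.degree := by
      refine lt_of_le_of_lt ?_ (Polynomial.degree_lt_degree hdeg)
      rw [← Polynomial.smul_eq_C_mul]
      exact Polynomial.degree_smul_le u D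
    have h1 : (N - Polynomial.C u * D).leadingCoeff = N.leadingCoeff :=
      Polynomial.leadingCoeff_sub_of_degree_lt hlt
    have h2 : (N - Polynomial.C u * D).natDegree = N.natDegree :=
      Polynomial.natDegree_eq_of_degree_eq (Polynomial.degree_sub_eq_left_of_degree_lt hlt)
    have h3 : (N - Polynomial.C u * D) ≠ 0 := by
      intro h4
      rw [h4, Polynomial.leadingCoeff_zero] at h1
      exact hN0 (Polynomial.leadingCoeff_eq_zero.1 h1.symm)
    have h4 : (N - Polynomial.C u * D).eval (xc T) = (xc (φ.k0 T) - u) * D.eval (xc T) := by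
      rw [Polynomial.eval_sub, Polynomial.eval_mul, Polynomial.eval_C, ((hx T hT).2 h0).2]
      ring
    have h5 := f2_prod hmp (N - Polynomial.C u * D) (xc T)
    rw [h4, f.map_mul, h1, hTe] at h5
    rw [h5]
    congr 1
    have h6 : ∀ r ∈ (N - Polynomial.C u * D).roots, f (e - r) = ρ := by
      intro r hr
      obtain ⟨S, hS0, rfl⟩ := f2_exists hV r
      have h7 : N.eval (xc S) = u * D.eval (xc S) := by
        have h8 := (Polynomial.mem_roots h3).1 hr
        rw [Polynomial.IsRoot, Polynomial.eval_sub, Polynomial.eval_mul, Polynomial.eval_C,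
          sub_eq_zero] at h8
        exact h8
      have h9 : D.eval (xc S) ≠ 0 := by
        intro h10
        rw [h10, mul_zero] at h7
        exact hcop _ h10 h7
      have h11 : φ.k0 S ≠ 0 := fun h12 => h9 ((hx S hS0).1 h12)
      have h13 : xc (φ.k0 S) = u := by
        have h14 := ((hx S hS0).2 h11).2
        rw [h7] at h14
        exact (mul_right_cancel₀ h9 h14).symm
      have h15 : 2 • φ.k0 S = 0 := f2_two _ h11 (by rw [h13]; exact hu)
      have h16 : φ.k0 (S + T) = φ.k0 S + φ.k0 T := map_add φ.k0H S T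
      refine K_dist hf hρ h T hT hTe S (K_notBig hf hρ h.hs h.ht φ hV hW hφ S h15 h11)
        (K_notBig hf hρ h.hs h.ht φ hV hW hφ (S + T) ?_ ?_)
      · rw [h16, smul_add, h15, h2φ, add_zero]
      · rw [h16]
        intro h17
        have h18 : - φ.k0 T = φ.k0 T := by
          rw [two_smul] at h2φ
          exact (eq_neg_of_add_eq_zero_left h2φ).symm
        have h19 := (eq_neg_of_add_eq_zero_left h17).trans h18
        rw [h19] at h13
        exact hne h13.symm
    rw [Multiset.map_congr rfl h6, Multiset.map_const', Multiset.prod_replicate,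
      ← (IsAlgClosed.splits _).natDegree_eq_card_roots, h2]
  have hDe : 0 < f (D.eval e) := by
    rw [← hTe]
    exact f.pos ((hx T hT).2 h0).1
  refine ⟨f N.leadingCoeff * ρ ^ N.natDegree / f (D.eval e), fun u hu hne => ?_⟩
  rw [eq_div_iff hDe.ne']
  exact hM u hu hne

theorem fix_apex {f : AbsoluteValue Qb ℝ} {ρ : ℝ} {s t e : Qb} (hf : Odd2 f) (hρ : 0 < ρ)
    (h : Apex f ρ s t e) (hn : Near f ρ s t e) (hV : (lc s t).IsElliptic)
    (φ : Hm (lc s t) (lc s t)) (T : (lc s t).toAffine.Point) (hT : T ≠ 0) (hTe : xc T = e) :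
    φ.k0 T = 0 ∨ φ.k0 T = T := by
  by_cases h0 : φ.k0 T = 0
  · exact Or.inl h0
  right
  have h2T : 2 • T = 0 := f2_two T hT (by rw [hTe]; exact h.root)
  have h2φ : 2 • φ.k0 T = 0 := by
    have h1 : φ.k0 (2 • T) = 2 • φ.k0 T := map_nsmul φ.k0H 2 T
    rw [← h1, h2T]
    exact map_zero φ.k0H
  obtain ⟨e', he'⟩ : ∃ e', e' = xc (φ.k0 T) := ⟨_, rfl⟩
  have hroot' : e' * (e' - s) * (e' - t) = 0 := by
    rcases xc_two _ h2φ h0 with h1 | h1 | h1
    · rw [he', h1]
      ring
    · rw [he', h1]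
      ring
    · rw [he', h1]
      ring
  by_cases hee : e' = e
  · refine f2_eq_of_xc _ _ h0 hT ?_ ?_
    · rw [← he']
      exact hroot'
    · rw [← he', hTe, hee]
  exfalso
  obtain ⟨ρ', hρ'⟩ := apex_image hf hρ h hV hV φ T hT hTe h0
  rw [← he'] at hρ'
  have hΔ : s ≠ 0 ∧ t ≠ 0 ∧ s ≠ t := by
    have h1 : (lc s t).Δ = 16 * s ^ 2 * t ^ 2 * (s - t) ^ 2 := by
      simp only [lc, WeierstrassCurve.Δ, WeierstrassCurve.b₂, WeierstrassCurve.b₄,
        WeierstrassCurve.b₆, WeierstrassCurve.b₈]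
      ring
    have h2 : (lc s t).Δ ≠ 0 := hV.isUnit.ne_zero
    rw [h1] at h2
    refine ⟨?_, ?_, ?_⟩
    · rintro rfl
      exact h2 (by ring)
    · rintro rfl
      exact h2 (by ring)
    · rintro rfl
      exact h2 (by ring)
  obtain ⟨hs0, ht0, hst0⟩ := hΔ
  have hsub : ∀ {a b : Qb}, f a ≤ ρ → f b ≤ ρ → f (a - b) ≤ ρ := fun {a b} h1 h2 => by
    rw [sub_eq_add_neg]
    exact (hf.na a (-b)).trans (max_le h1 (by rwa [f.map_neg]))
  have hle : ∀ u : Qb, u = 0 ∨ u = s ∨ u = t → f u ≤ ρ := by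
    rintro u (rfl | rfl | rfl)
    · rw [map_zero]
      exact hρ.le
    · exact h.hs
    · exact h.ht
  have hr : ∀ u : Qb, u * (u - s) * (u - t) = 0 → u = 0 ∨ u = s ∨ u = t := by
    intro u hu
    rcases mul_eq_zero.1 hu with h1 | h1
    · rcases mul_eq_zero.1 h1 with h2 | h2
      · exact Or.inl h2
      · exact Or.inr (Or.inl (sub_eq_zero.1 h2))
    · exact Or.inr (Or.inr (sub_eq_zero.1 h1))
  obtain ⟨v, hv, hve, hve', hd⟩ : ∃ v : Qb, v * (v - s) * (v - t) = 0 ∧ v ≠ e ∧ v ≠ e' ∧
      3 * e ^ 2 - 2 * (s + t) * e + s * t = (e - e') * (e - v) := by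
    refine ⟨s + t - e - e', ?_⟩
    rcases hr e h.root with h1 | h1 | h1 <;> rcases hr e' hroot' with h2 | h2 | h2 <;>
      rw [h1, h2] at hee ⊢
    · exact absurd rfl hee
    · refine ⟨by ring, ?_, ?_, by ring⟩
      · intro h3; apply ht0; linear_combination h3
      · intro h3; apply hst0; linear_combination -h3
    · refine ⟨by ring, ?_, ?_, by ring⟩
      · intro h3; apply hs0; linear_combination h3
      · intro h3; apply hst0; linear_combination h3
    · refine ⟨by ring, ?_, ?_, by ring⟩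
      · intro h3; apply hst0; linear_combination -h3
      · intro h3; apply ht0; linear_combination h3
    · exact absurd rfl hee
    · refine ⟨by ring, ?_, ?_, by ring⟩
      · intro h3; apply hs0; linear_combination -h3
      · intro h3; apply ht0; linear_combination -h3
    · refine ⟨by ring, ?_, ?_, by ring⟩
      · intro h3; apply hst0; linear_combination h3
      · intro h3; apply hs0; linear_combination h3
    · refine ⟨by ring, ?_, ?_, by ring⟩
      · intro h3; apply ht0; linear_combination -h3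
      · intro h3; apply hs0; linear_combination -h3
    · exact absurd rfl hee
  have h1 := hρ' e h.root (fun h2 => hee h2.symm)
  have h2 := hρ' v hv hve'
  have h3 := hn e' v hroot' hv hee hve (fun h4 => hve' h4.symm)
  have h4 : f (e - e') * f (e - v) = ρ ^ 2 := by
    rw [← f.map_mul, ← hd]
    exact h.d
  have h5 : f (e - e') = f (e' - v) := by rw [f.map_sub, h1, h2]
  have h6 : f (e - v) ≤ ρ := hsub (hle e (hr e h.root)) (hle v (hr v hv))
  have h7 : f (e - e') * f (e - v) < ρ ^ 2 := by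
    have h8 := f.nonneg (e - e')
    calc f (e - e') * f (e - v) ≤ f (e - e') * ρ := mul_le_mul_of_nonneg_left h6 h8
      _ < ρ * ρ := mul_lt_mul_of_pos_right (by rw [h5]; exact h3) hρ
      _ = ρ ^ 2 := by ring
  linarith

end Pool.Agent.LibNC34
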